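import Pool.Agent.Results.MP_c41b7c_co.RealExponents
import Pool.Agent.Lib.MP_c41b7c_co.PF.UHW
import Pool.Agent.Lib.MP_c41b7c_co.PF.CDA
import Pool.Agent.Lib.MP_c41b7c_co.PF.CDB
import Pool.Agent.Lib.MP_c41b7c_co.PF.EX1
import Pool.Agent.Lib.MP_c41b7c_co.PF.CDC
import Pool.Agent.Lib.MP_c41b7c_co.PF.VWN
import Pool.Agent.Lib.MP_c41b7c_co.PF.NPW
import Pool.Agent.Lib.MP_c41b7c_co.PF.WIN
import Pool.Agent.Lib.MP_c41b7c_co.PF.DEN
import Pool.Agent.Lib.MP_c41b7c_co.PF.TREE

/-!
Problem MP_c41b7c_co: infinite binary words without factors of exponent at least `α`, for every real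
`α > 8/3` (`α = 3`: the cube free words): quantitative perfectness.

The positions at which such a word can be left inside the set of these words have positive lower density, and
every cylinder which meets the set contains exponentially many prefixes of its elements.
-/

set_option autoImplicit false

namespace Pool.Agent.Results.MP_c41b7c_co.BranchingDensity

open Pool.Agent.Lib.MPc41b7c.PF

/-- No factor of `w` has exponent at least `α`: a factor of length `L` with a period `p ≥ 1` has
`L < α p`. -/
def PowerFree (α : ℝ) (w : ℕ → Bool) : Prop :=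
  ∀ i p L : ℕ, 0 < p → (∀ j, j + p < L → w (i + j) = w (i + j + p)) → (L : ℝ) < α * p

/-- Another word without factors of exponent at least `α` agrees with `w` before `m` and differs from `w`
at `m`. -/
def Branches (α : ℝ) (w : ℕ → Bool) (m : ℕ) : Prop :=
  ∃ v : ℕ → Bool, PowerFree α v ∧ (∀ k < m, v k = w k) ∧ v m ≠ w m

/-- The words of length `N` which are prefixes of words without factors of exponent at least `α` which agree
with `w` before `n`. -/
def Prefixes (α : ℝ) (w : ℕ → Bool) (n N : ℕ) : Set (Fin N → Bool) :=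
  {u | ∃ v : ℕ → Bool, PowerFree α v ∧ (∀ k < n, v k = w k) ∧ ∀ k : Fin N, u k = v k}

lemma powerFree_iff (α : ℝ) (w : ℕ → Bool) : PowerFree α w ↔ PowFree α w :=
  RealExponents.powerFree_iff α w

lemma den : SpecDEN :=
  specDEN (specUHW specUNI specHF specHF2)
    (specCDA specHF RealExponents.inj RealExponents.blk)
    (specCDB specHF RealExponents.inj RealExponents.blk)
    (specCDC specUNI specHF2 (specD2 specUNI specHF2) RealExponents.b2 specEX1)
    (specVWN (specD2 specUNI specHF2) (specUHW specUNI specHF specHF2)) specNPW specWIN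

open Classical in
lemma branches (α : ℝ) (hα : 8 / 3 < α) (w : ℕ → Bool) (hw : PowFree α w) (n N : ℕ) :
    N ≤ (3 * ⌈α⌉₊ + 33) *
      (((Finset.Ico n N).filter fun m => Br {v | PowFree α v} w m).card + 2 * n + 23) := by
  refine (den α w hα hw n N).trans ?_
  apply Nat.mul_le_mul_left
  have h : (Fc α w n N).card ≤ ((Finset.Ico n N).filter fun m => Br {v | PowFree α v} w m).card := by
    apply Finset.card_le_card
    intro m hm
    unfold Fc at hm
    rw [Finset.mem_filter] at hm ⊢
    refine ⟨hm.1, ext w m, hm.2, ?_, ?_⟩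
    · intro k hk
      unfold ext
      rw [if_pos hk]
    · unfold ext sg
      rw [if_neg (lt_irrefl m), Nat.sub_self, Nat.add_zero]
      split_ifs
      · rw [tm_1]; cases w m <;> decide
      · rw [tm_2]; cases w m <;> decide
  omega

open Classical in
theorem result (α : ℝ) (hα : 8 / 3 < α) (w : ℕ → Bool) (hw : PowerFree α w) (n N : ℕ) :
    N ≤ (3 * ⌈α⌉₊ + 33) *
      (((Finset.Ico n N).filter fun m => Branches α w m).card + 2 * n + 23) ∧
    2 ^ (N / (3 * ⌈α⌉₊ + 33)) ≤ 2 ^ (2 * n + 23) * (Prefixes α w n N).ncard := by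
  have hw' := (powerFree_iff α w).1 hw
  have hB : ∀ (v : ℕ → Bool) (m : ℕ), Br {v | PowFree α v} v m ↔ Branches α v m := by
    intro v m
    constructor
    · rintro ⟨u, hu, h⟩
      exact ⟨u, (powerFree_iff α u).2 hu, h⟩
    · rintro ⟨u, hu, h⟩
      exact ⟨u, (powerFree_iff α u).1 hu, h⟩
  have hP : Prefixes α w n N = Pre {v | PowFree α v} w n N := by
    ext u
    constructor
    · rintro ⟨v, hv, h⟩
      exact ⟨v, (powerFree_iff α v).1 hv, h⟩
    · rintro ⟨v, hv, h⟩
      exact ⟨v, (powerFree_iff α v).2 hv, h⟩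
  refine ⟨?_, ?_⟩
  · have h := branches α hα w hw' n N
    simp only [hB] at h
    exact h
  · obtain ⟨K, hK⟩ : ∃ K, K = 3 * ⌈α⌉₊ + 33 := ⟨_, rfl⟩
    rw [← hK]
    have hKpos : 0 < K := by omega
    rcases le_or_gt n N with hn | hn
    · have hT := specTREE {v | PowFree α v} w n N (N / K - (2 * n + 23)) hw' hn (by
        intro v hv _
        have h := branches α hα v hv n N
        rw [← hK] at h
        have h2 : N / K ≤ ((Finset.Ico n N).filter fun m => Br {v | PowFree α v} v m).card
            + 2 * n + 23 := by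
          apply Nat.div_le_of_le_mul
          exact h
        omega)
      rw [hP]
      calc 2 ^ (N / K) ≤ 2 ^ ((2 * n + 23) + (N / K - (2 * n + 23))) :=
            Nat.pow_le_pow_right (by norm_num) (by omega)
        _ = 2 ^ (2 * n + 23) * 2 ^ (N / K - (2 * n + 23)) := pow_add _ _ _
        _ ≤ 2 ^ (2 * n + 23) * (Pre {v | PowFree α v} w n N).ncard :=
            Nat.mul_le_mul_left _ hT
    · have h1 : 1 ≤ (Prefixes α w n N).ncard := by
        rw [Nat.one_le_iff_ne_zero]
        intro h0
        rw [Set.ncard_eq_zero (Set.toFinite _)] at h0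
        have : (fun k : Fin N => w k) ∈ Prefixes α w n N := ⟨w, hw, fun _ _ => rfl, fun _ => rfl⟩
        rw [h0] at this
        exact this
      calc 2 ^ (N / K) ≤ 2 ^ (2 * n + 23) :=
            Nat.pow_le_pow_right (by norm_num) ((Nat.div_le_self N K).trans (by omega))
        _ = 2 ^ (2 * n + 23) * 1 := (mul_one _).symm
        _ ≤ 2 ^ (2 * n + 23) * (Prefixes α w n N).ncard := Nat.mul_le_mul_left _ h1

end Pool.Agent.Results.MP_c41b7c_co.BranchingDensity
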