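import Pool.Agent.Lib.MP_c41b7c_co.PF.OVL
import Pool.Agent.Lib.MP_c41b7c_co.PF.SH
import Pool.Agent.Lib.MP_c41b7c_co.PF.LA
import Pool.Agent.Lib.MP_c41b7c_co.PF.LB
import Pool.Agent.Lib.MP_c41b7c_co.PF.MC
import Pool.Agent.Lib.MP_c41b7c_co.PF.MIN
import Pool.Agent.Lib.MP_c41b7c_co.PF.ROOT
import Pool.Agent.Lib.MP_c41b7c_co.PF.UNI
import Pool.Agent.Lib.MP_c41b7c_co.PF.HF
import Pool.Agent.Lib.MP_c41b7c_co.PF.BLK
import Pool.Agent.Lib.MP_c41b7c_co.PF.INJ
import Pool.Agent.Lib.MP_c41b7c_co.PF.NAP
import Pool.Agent.Lib.MP_c41b7c_co.PF.CNT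
import Pool.Agent.Lib.MP_c41b7c_co.PF.DFS
import Pool.Agent.Lib.MP_c41b7c_co.PF.CN3
import Pool.Agent.Lib.MP_c41b7c_co.PF.ISO
import Pool.Agent.Lib.MP_c41b7c_co.PF.RB
import Pool.Agent.Lib.MP_c41b7c_co.PF.MCS
import Pool.Agent.Lib.MP_c41b7c_co.PF.RTA
import Pool.Agent.Lib.MP_c41b7c_co.PF.RTX
import Pool.Agent.Lib.MP_c41b7c_co.PF.RTB
import Pool.Agent.Lib.MP_c41b7c_co.PF.HF2
import Pool.Agent.Lib.MP_c41b7c_co.PF.B2
import Pool.Agent.Lib.MP_c41b7c_co.PF.EXC
import Pool.Agent.Lib.MP_c41b7c_co.PF.D2
import Pool.Agent.Lib.MP_c41b7c_co.PF.CN2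
import Pool.Agent.Lib.MP_c41b7c_co.PF.DN2
import Pool.Agent.Lib.MP_c41b7c_co.PF.FI2

/-!
Problem MP_c41b7c_co: infinite binary words without factors of exponent at least `α`, for every real
`α > 8/3` (`α = 3`: the cube free words).

The set of these words is nonempty and perfect. More precisely, for every such word `w` there are
infinitely many `m` such that `w 0, .., w (m - 1)`, followed by the tail from `1` or `2` of the Thue-Morse word or
of its complement, the one which starts with the letter different from `w m`, is again such a word.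
-/

set_option autoImplicit false

namespace Pool.Agent.Results.MP_c41b7c_co.RealExponents

open Pool.Agent.Lib.MPc41b7c.PF

/-- No factor of `w` has exponent at least `α`: a factor of length `L` with a period `p ≥ 1` has
`L < α p`. -/
def PowerFree (α : ℝ) (w : ℕ → Bool) : Prop :=
  ∀ i p L : ℕ, 0 < p → (∀ j, j + p < L → w (i + j) = w (i + j + p)) → (L : ℝ) < α * p

/-- The Thue-Morse word: the parity of the sum of the binary digits. -/
def thueMorse (n : ℕ) : Bool := decide ((Nat.digits 2 n).sum % 2 = 1)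

lemma powerFree_iff (α : ℝ) (w : ℕ → Bool) : PowerFree α w ↔ PowFree α w := by
  constructor
  · intro h p i L hp hL
    apply h i p L hp
    intro j hj
    exact hL (i + j) (by omega) (by omega)
  · intro h i p L hp hL
    apply h p i L hp
    intro k hk1 hk2
    obtain ⟨j, rfl⟩ : ∃ j, k = i + j := ⟨k - i, by omega⟩
    exact hL j (by omega)

lemma thueMorse_eq (n : ℕ) : thueMorse n = tm n := by
  induction n using Nat.strong_induction_on with
  | _ n ih =>
    rcases Nat.eq_zero_or_pos n with rfl | hn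
    · rw [tm_zero]; rfl
    · have hd : Nat.digits 2 n = n % 2 :: Nat.digits 2 (n / 2) :=
        Nat.digits_def' (by norm_num) hn
      have h1 := ih (n / 2) (by omega)
      rcases Nat.even_or_odd' n with ⟨a, ha | ha⟩
      · have e1 : n % 2 = 0 := by omega
        have e2 : n / 2 = a := by omega
        rw [e2] at h1 hd
        rw [e1] at hd
        rw [ha, tm_even, ← h1, thueMorse, ← ha, hd]
        simp [thueMorse]
      · have e1 : n % 2 = 1 := by omega
        have e2 : n / 2 = a := by omega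
        rw [e2] at h1 hd
        rw [e1] at hd
        rw [ha, tm_odd, ← h1, thueMorse, ← ha, hd]
        simp only [thueMorse, List.sum_cons]
        by_cases h : (Nat.digits 2 a).sum % 2 = 1
        · have h2 : ¬ (1 + (Nat.digits 2 a).sum) % 2 = 1 := by omega
          simp [h, h2]
        · have h2 : (1 + (Nat.digits 2 a).sum) % 2 = 1 := by omega
          simp [h, h2]

lemma blk : SpecBLK := specBLK specOVL (specROOT (specMC specSH specLA specLB) specMIN)

lemma inj : SpecINJ := specINJ specUNI specHF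

lemma cnt : SpecCNT := specCNT specHF inj specNAP

lemma cn3 : SpecCN3 := specCN3 specHF inj (specDFS specUNI specHF)

/-- The exponents `α ≥ 3`. -/
lemma dense3 : SpecDENSE := by
  intro α hα w hw n
  by_contra hcon
  push Not at hcon
  have key : ∀ m, n + 1 ≤ m → Ok α w m → ∃ a p, Hit w m a p := fun m hm hok =>
    blk α w m hα hw (by omega) hok (hcon m (by omega))
  rcases hα.lt_or_eq with h | h
  · exact cnt α w h hw (n + 1) (by omega) key
  · subst h
    exact cn3 w hw (n + 1) (by omega) key

lemma rb : SpecRB := specRB specLB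

lemma b2 : SpecB2 :=
  specB2 specOVL rb (specRTA (specMCS specSH specLA) specMIN) specRTX (specRTB rb specMIN)

lemma cn2 : SpecCN2 := specCN2 specUNI specHF2 (specD2 specUNI specHF2)

/-- All exponents `α > 8/3`. -/
lemma dense : SpecDENSE2 := specDN2 dense3 b2 specEXC cn2

theorem result (α : ℝ) (hα : 8 / 3 < α) :
    {w : ℕ → Bool | PowerFree α w}.Nonempty ∧ Perfect {w : ℕ → Bool | PowerFree α w} ∧
      ∀ w : ℕ → Bool, PowerFree α w → ∀ n : ℕ, ∃ m ≥ n, ∃ s : ℕ, (s = 1 ∨ s = 2) ∧
        PowerFree α (fun k => if k < m then w k else xor (w m) (thueMorse (s + (k - m)))) := by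
  have he : {w : ℕ → Bool | PowerFree α w} = {w : ℕ → Bool | PowFree α w} := by
    ext w
    exact powerFree_iff α w
  rw [he]
  have hf := specFI2 specOVL specISO dense α hα
  refine ⟨hf.1, hf.2, ?_⟩
  intro w hw n
  obtain ⟨m, hm, h⟩ := dense α hα w ((powerFree_iff α w).1 hw) n
  refine ⟨m, hm, sg w m, ?_, ?_⟩
  · unfold sg
    split_ifs
    · exact Or.inl rfl
    · exact Or.inr rfl
  · rw [powerFree_iff]
    simp only [thueMorse_eq]
    exact h

end Pool.Agent.Results.MP_c41b7c_co.RealExponents
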