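import Pool.Agent.Results.MP_c41b7c_co.RealExponents
import Pool.Agent.Lib.MP_c41b7c_co.PF.TREV
import Pool.Agent.Lib.MP_c41b7c_co.PF.GL2
import Pool.Agent.Lib.MP_c41b7c_co.PF.TR2

/-!
Problem MP_c41b7c_co: the transition property of the binary words without factors of exponent at least `α`,
for every real `α > 8/3`.

If `u` is a prefix of an infinite word and `v` a suffix of a left infinite word without factors of exponent
at least `α`, then `u x v` has no factor of exponent at least `α`, for some finite word `x`.
-/

set_option autoImplicit false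

namespace Pool.Agent.Results.MP_c41b7c_co.TransitionProperty

open Pool.Agent.Lib.MPc41b7c.PF

/-- No factor of the infinite word `w` has exponent at least `α`: a factor of length `L` with a period
`p ≥ 1` has `L < α p`. -/
def PowerFree (α : ℝ) (w : ℕ → Bool) : Prop :=
  ∀ i p L : ℕ, 0 < p → (∀ j, j + p < L → w (i + j) = w (i + j + p)) → (L : ℝ) < α * p

/-- No factor of the finite word `l` has exponent at least `α`. -/
def PowerFreeWord (α : ℝ) (l : List Bool) : Prop :=
  ∀ i p L : ℕ, 0 < p → i + L ≤ l.length → (∀ j, j + p < L → l[i + j]? = l[i + j + p]?) →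
    (L : ℝ) < α * p

/-- `u` is a prefix of an infinite word without factors of exponent at least `α`. -/
def RightExtendable (α : ℝ) (u : List Bool) : Prop :=
  ∃ w : ℕ → Bool, PowerFree α w ∧ ∀ k < u.length, u[k]? = some (w k)

/-- `v` is a suffix of a left infinite word `.. w 2, w 1, w 0` without factors of exponent at
least `α`. -/
def LeftExtendable (α : ℝ) (v : List Bool) : Prop :=
  ∃ w : ℕ → Bool, PowerFree α w ∧ ∀ k < v.length, v.reverse[k]? = some (w k)

lemma powerFree_iff (α : ℝ) (w : ℕ → Bool) : PowerFree α w ↔ PowFree α w :=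
  RealExponents.powerFree_iff α w

theorem result (α : ℝ) (hα : 8 / 3 < α) (u v : List Bool) (hu : RightExtendable α u)
    (hv : LeftExtendable α v) : ∃ x : List Bool, PowerFreeWord α (u ++ x ++ v) := by
  obtain ⟨U, hU, hU'⟩ := hu
  obtain ⟨V, hV, hV'⟩ := hv
  exact specTR2 RealExponents.dense (specGL2 specOVL specSH specTREV) α hα u v U V
    ((powerFree_iff α U).1 hU) ((powerFree_iff α V).1 hV) hU' hV'

end Pool.Agent.Results.MP_c41b7c_co.TransitionProperty
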